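import Pool.Agent.V11275.Braid2

/-!
The abstract isometric coding of braid classes; the proof follows
`Pool.V11275.Braid.main` with a stronger conclusion.
-/

namespace Pool.Agent.Helper308.BraidIso

open Pool.V11275.Braid

variable {A : Type*} {R : A → A → Prop}

/-- The abstract statement, with the isometric coding by the middle letters of the shadows. -/
theorem main2 (hsymm : ∀ a b, R a b → R b a) (hirr : ∀ a, ¬ R a a)
    (htri : ∀ a b c, R a b → R b c → R a c → False)
    (K : Set (ℤ → A)) (f0 : ℤ → A) (hf0 : f0 ∈ K)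
    (hcl : ∀ f ∈ K, ∀ g i, Step R f g i → g ∈ K)
    (hreach : ∀ f ∈ K, ∃ n, PathLen R f0 f n)
    (hgood : ∀ f ∈ K, Good R f)
    (N : Finset ℤ) (hN : ∀ f ∈ K, ∀ i, R (f i) (f (i + 1)) → i ∈ N) :
    ∃ (C : Finset ℤ) (code : (ℤ → A) → ℤ → Bool),
      (∀ f ∈ K, ∀ g ∈ K, PathLen R f g (C.filter fun c => code f c ≠ code g c).card) ∧
      (∀ f ∈ K, ∀ g ∈ K, ∀ n, PathLen R f g n →
        (C.filter fun c => code f c ≠ code g c).card ≤ n) ∧
      (∃ f ∈ K, ∃ g ∈ K, ∀ c ∈ C, code f c ≠ code g c) := by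
  classical
  have hclP : ∀ f g n, PathLen R f g n → f ∈ K → g ∈ K := by
    intro f g n h
    induction h with
    | refl f => exact id
    | step hs _ ih => exact fun hf => ih (hcl _ hf _ _ hs)
  -- families inside K
  let InK : Fam R → Prop := fun P => ∃ ε, P.Valid ε ∧ P.word ε ∈ K
  have allK : ∀ P : Fam R, InK P → ∀ δ, P.Valid δ → P.word δ ∈ K := by
    rintro P ⟨ε, hε, hK⟩ δ hδ
    exact hclP _ _ _ (P.path_valid hsymm _ hε hδ rfl) hK
  have shadowOf : ∀ P : Fam R, InK P → ∀ c ∈ P.C,
      ∃ f ∈ K, R (f c) (f (c + 1)) ∧ f (c + 2) = f c := by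
    intro P hP c hc
    obtain ⟨ε, h1, h2⟩ := P.exists_free hc
    have := P.step_flip hsymm hc h1 h2
    exact ⟨_, allK P hP ε h1, this.1, this.2.1⟩
  have bound : ∀ P : Fam R, InK P → P.C ⊆ N := by
    intro P hP c hc
    obtain ⟨f, hf, h1, _⟩ := shadowOf P hP c hc
    exact hN f hf c h1
  -- initial family
  let P0 : Fam R := ⟨∅, fun _ _ => f0 0, fun _ => true, fun _ => true, f0, by simp, by simp,
    by simp⟩
  have hP0 : InK P0 := by
    refine ⟨fun _ => true, ?_, ?_⟩
    · intro c hc; simp [P0] at hc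
    · have : P0.word (fun _ => true) = f0 := by
        funext k; simp [Fam.word, P0]
      rw [this]; exact hf0
  -- maximal family
  have hmax : ∃ P : Fam R, InK P ∧ ∀ P' : Fam R, InK P' → P'.C.card ≤ P.C.card := by
    let T : Set ℕ := {n | ∃ P : Fam R, InK P ∧ P.C.card = n}
    have hT : T.Nonempty := ⟨_, P0, hP0, rfl⟩
    have hTb : BddAbove T := by
      refine ⟨N.card, ?_⟩
      rintro n ⟨P, hP, rfl⟩
      exact Finset.card_le_card (bound P hP)
    obtain ⟨P, hP, hPc⟩ := Nat.sSup_mem hT hTb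
    refine ⟨P, hP, ?_⟩
    intro P' hP'
    rw [hPc]
    exact le_csSup hTb ⟨P', hP', rfl⟩
  obtain ⟨P, hP, hPmax⟩ := hmax
  have goodP : ∀ δ, P.Valid δ → Good R (P.word δ) := fun δ hδ => hgood _ (allK P hP δ hδ)
  have memC : ∀ ε, P.Valid ε → ∀ j, R (P.word ε j) (P.word ε (j + 1)) →
      P.word ε (j + 2) = P.word ε j → j ∈ P.C := by
    intro ε hε j h1 h2
    by_contra hj
    obtain ⟨P', hC', ε', hε', hw⟩ := P.extend hsymm hirr goodP hε hj h1 h2
    have : InK P' := ⟨ε', hε', by rw [hw]; exact allK P hP ε hε⟩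
    have := hPmax P' this
    rw [hC', Finset.card_insert_of_notMem hj] at this
    omega
  -- closure: any step from a valid word leads to a valid word
  have closure : ∀ ε, P.Valid ε → ∀ g j, Step R (P.word ε) g j →
      j ∈ P.C ∧ P.Valid (Function.update ε j (!ε j)) ∧
        g = P.word (Function.update ε j (!ε j)) := by
    intro ε hε g j hst
    have hj := memC ε hε j hst.1 hst.2.1
    have hv := P.flip_valid hsymm htri hε hj hst.1 hst.2.1
    exact ⟨hj, hv, hst.unique (P.step_flip hsymm hj hε hv)⟩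
  have closureP : ∀ f g n, PathLen R f g n → (∃ ε, P.Valid ε ∧ P.word ε = f) →
      ∃ ε, P.Valid ε ∧ P.word ε = g := by
    intro f g n h
    induction h with
    | refl f => exact id
    | step hs _ ih =>
      rintro ⟨ε, hε, rfl⟩
      obtain ⟨_, h1, h2⟩ := closure ε hε _ _ hs
      exact ih ⟨_, h1, h2.symm⟩
  have pathSymm : ∀ f g n, PathLen R f g n → ∃ m, PathLen R g f m := by
    have app : ∀ f g n, PathLen R f g n → ∀ h m, PathLen R g h m → ∃ m', PathLen R f h m' := by
      intro f g n h1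
      induction h1 with
      | refl f => exact fun h m hm => ⟨m, hm⟩
      | step hs _ ih =>
        intro h m hm
        obtain ⟨m', hm'⟩ := ih h m hm
        exact ⟨m' + 1, PathLen.step hs hm'⟩
    intro f g n h1
    induction h1 with
    | refl f => exact ⟨0, PathLen.refl f⟩
    | @step f g h i n hs _ ih =>
      obtain ⟨m, hm⟩ := ih
      exact app _ _ _ hm _ _ (PathLen.step (hs.symm hsymm) (PathLen.refl f))
  have app : ∀ f g n, PathLen R f g n → ∀ h m, PathLen R g h m → ∃ m', PathLen R f h m' := by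
    intro f g n h1
    induction h1 with
    | refl f => exact fun h m hm => ⟨m, hm⟩
    | step hs _ ih =>
      intro h m hm
      obtain ⟨m', hm'⟩ := ih h m hm
      exact ⟨m' + 1, PathLen.step hs hm'⟩
  have Keq : ∀ f ∈ K, ∃ ε, P.Valid ε ∧ P.word ε = f := by
    intro f hf
    obtain ⟨ε1, hε1, hK1⟩ := hP
    obtain ⟨n1, hn1⟩ := hreach _ hK1
    obtain ⟨m1, hm1⟩ := pathSymm _ _ _ hn1
    obtain ⟨n, hn⟩ := hreach f hf
    obtain ⟨m, hm⟩ := app _ _ _ hm1 _ _ hn
    exact closureP _ _ _ hm ⟨ε1, hε1, rfl⟩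
  have hdiff : ∀ c ∈ P.C, P.e c true ≠ P.e c false := by
    intro c hc h
    have := P.h1 c hc
    rw [h] at this
    exact hirr _ this
  let code : (ℤ → A) → ℤ → Bool := fun f c => decide (f (c + 1) = P.e c true)
  have hcode : ∀ ε : ℤ → Bool, ∀ c ∈ P.C, code (P.word ε) c = ε c := by
    intro ε c hc
    show decide (P.word ε (c + 1) = P.e c true) = ε c
    rw [P.word_center ε hc]
    cases ε c
    · exact decide_eq_false (hdiff c hc).symm
    · exact decide_eq_true rfl
  have hfil : ∀ ε δ : ℤ → Bool, (P.C.filter fun c => code (P.word ε) c ≠ code (P.word δ) c) =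
      P.C.filter fun c => ε c ≠ δ c := by
    intro ε δ
    apply Finset.filter_congr
    intro c hc
    rw [hcode ε c hc, hcode δ c hc]
  refine ⟨P.C, code, ?_, ?_, ?_⟩
  · intro f hf g hg
    obtain ⟨ε, hε, rfl⟩ := Keq f hf
    obtain ⟨δ, hδ, rfl⟩ := Keq g hg
    rw [hfil]
    exact P.path_valid hsymm _ hε hδ rfl
  · have key : ∀ f g n, PathLen R f g n → ∀ ε δ, P.Valid ε → P.Valid δ → P.word ε = f →
        P.word δ = g → (P.C.filter (fun c => ε c ≠ δ c)).card ≤ n := by
      intro f g n h
      induction h with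
      | refl f =>
        intro ε δ hε hδ h1 h2
        rw [Nat.le_zero, Finset.card_eq_zero, Finset.filter_eq_empty_iff]
        intro c hc
        rw [not_not, ← hcode ε c hc, ← hcode δ c hc, h1, h2]
      | @step f g h i n hs _ ih =>
        intro ε δ hε hδ h1 h2
        subst h1
        obtain ⟨hi, c1, c2⟩ := closure ε hε _ _ hs
        have := ih (Function.update ε i (!ε i)) δ c1 hδ c2.symm h2
        have sub : P.C.filter (fun c => ε c ≠ δ c) ⊆
            insert i (P.C.filter (fun c => Function.update ε i (!ε i) c ≠ δ c)) := by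
          intro k hk
          rw [Finset.mem_insert]
          by_cases hki : k = i
          · exact Or.inl hki
          · right
            rw [Finset.mem_filter] at hk ⊢
            rw [Function.update_of_ne hki]
            exact hk
        calc _ ≤ _ := Finset.card_le_card sub
          _ ≤ _ := Finset.card_insert_le _ _
          _ ≤ n + 1 := by omega
    intro f hf g hg n hn
    obtain ⟨ε, hε, rfl⟩ := Keq f hf
    obtain ⟨δ, hδ, rfl⟩ := Keq g hg
    rw [hfil]
    exact key _ _ n hn ε δ hε hδ rfl rfl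
  · obtain ⟨ε, h1, h2⟩ := P.exists_antipodal
    refine ⟨_, allK P hP _ h1, _, allK P hP _ h2, ?_⟩
    intro c hc
    rw [hcode ε c hc, hcode _ c hc]
    cases ε c <;> simp

end Pool.Agent.Helper308.BraidIso
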