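import Mathlib
import Pool.Agent.Y246.Z700.Jac2

/-!
q-series toolkit: theta-like series indexed by the integers, and the rearrangement of the double sum
behind `f_1^5 / f_2^2`.
-/

set_option autoImplicit false

namespace Pool.Agent.Helper308.QS

open Finset PowerSeries

/-- the series `∑ c i X^(e i)`, for an exponent function of growth `|i| ≤ e i + 1` -/
noncomputable def th {R : Type*} [CommRing R] (c : ℤ → R) (e : ℤ → ℤ) : R⟦X⟧ :=
  PowerSeries.mk fun n => ∑ i ∈ Icc (-((n : ℤ) + 1)) (n + 1), if e i = n then c i else 0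

/-- the growth condition -/
def Gr (e : ℤ → ℤ) : Prop := ∀ i, |i| ≤ e i + 1

theorem Gr.mem {e : ℤ → ℤ} (h : Gr e) {i : ℤ} {n B : ℤ} (hi : e i ≤ n) (hB : n + 1 ≤ B) :
    i ∈ Icc (-B) B := by
  rw [mem_Icc, ← abs_le]
  exact (h i).trans (by linarith)

theorem coeff_th {R : Type*} [CommRing R] {c : ℤ → R} {e : ℤ → ℤ} (h : Gr e) (n : ℕ) {B : ℤ}
    (hB : (n : ℤ) + 1 ≤ B) :
    coeff n (th c e) = ∑ i ∈ Icc (-B) B, if e i = n then c i else 0 := by
  rw [th, coeff_mk]
  refine sum_subset (Icc_subset_Icc (by linarith) hB) ?_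
  intro i _ hi
  rw [if_neg]
  intro he
  exact hi (h.mem he.le le_rfl)

/-- coefficients of a product, over a box -/
theorem coeff_th_mul {R : Type*} [CommRing R] {c d : ℤ → R} {e f : ℤ → ℤ} (he : Gr e) (hf : Gr f)
    (he0 : ∀ i, 0 ≤ e i) (hf0 : ∀ i, 0 ≤ f i) (n : ℕ) {B : ℤ} (hB : (n : ℤ) + 1 ≤ B) :
    coeff n (th c e * th d f) =
      ∑ p ∈ Icc (-B) B ×ˢ Icc (-B) B, if e p.1 + f p.2 = n then c p.1 * d p.2 else 0 := by
  rw [coeff_mul]
  have h1 : ∀ p ∈ antidiagonal n, coeff p.1 (th c e) * coeff p.2 (th d f) =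
      ∑ q ∈ Icc (-B) B ×ˢ Icc (-B) B, if e q.1 = p.1 ∧ f q.2 = p.2 then c q.1 * d q.2 else 0 := by
    intro p hp
    rw [HasAntidiagonal.mem_antidiagonal] at hp
    rw [coeff_th he p.1 (B := B) (by omega), coeff_th hf p.2 (B := B) (by omega), sum_mul_sum,
      sum_product]
    refine sum_congr rfl fun i _ => sum_congr rfl fun j _ => ?_
    by_cases h1 : e i = p.1 <;> by_cases h2 : f j = p.2 <;> simp [h1, h2]
  rw [sum_congr rfl h1, sum_comm]
  refine sum_congr rfl fun q _ => ?_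
  by_cases h : e q.1 + f q.2 = n
  · rw [if_pos h]
    rw [sum_eq_single ((e q.1).toNat, (f q.2).toNat)]
    · rw [if_pos]
      have := he0 q.1
      have := hf0 q.2
      constructor <;> simp <;> omega
    · intro p hp hne
      rw [if_neg]
      rintro ⟨a, b⟩
      apply hne
      ext <;> simp [a, b]
    · intro hn
      exfalso
      apply hn
      rw [HasAntidiagonal.mem_antidiagonal]
      have := he0 q.1
      have := hf0 q.2
      simp only
      omega
  · rw [if_neg h]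
    refine sum_eq_zero fun p hp => ?_
    rw [if_neg]
    rintro ⟨a, b⟩
    rw [HasAntidiagonal.mem_antidiagonal] at hp
    apply h
    rw [a, b]
    exact_mod_cast hp

/-- triangular exponent -/
def eT (i : ℤ) : ℤ := i * (i + 1) / 2
/-- square exponent -/
def eS (i : ℤ) : ℤ := i ^ 2
/-- pentagonal exponent, doubled -/
def eP2 (i : ℤ) : ℤ := 3 * i ^ 2 - i
/-- pentagonal exponent -/
def eA (i : ℤ) : ℤ := i * (3 * i + 1) / 2

theorem eT_two (i : ℤ) : 2 * eT i = i * (i + 1) := by
  unfold eT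
  exact Int.two_mul_ediv_two_of_even (Int.even_mul_succ_self i)

theorem eA_two (i : ℤ) : 2 * eA i = i * (3 * i + 1) := by
  unfold eA
  refine Int.two_mul_ediv_two_of_even ?_
  rcases Int.even_or_odd i with h | h
  · exact h.mul_right _
  · refine Even.mul_left ?_ _
    obtain ⟨k, rfl⟩ := h
    exact ⟨3 * k + 2, by ring⟩

theorem eT_nonneg (i : ℤ) : 0 ≤ eT i := by
  have := eT_two i
  rcases le_or_gt 0 i with h | h
  · nlinarith
  · nlinarith

theorem eA_nonneg (i : ℤ) : 0 ≤ eA i := by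
  have := eA_two i
  rcases le_or_gt 0 i with h | h
  · nlinarith
  · nlinarith

theorem eS_nonneg (i : ℤ) : 0 ≤ eS i := sq_nonneg i

theorem eP2_nonneg (i : ℤ) : 0 ≤ eP2 i := by
  unfold eP2
  rcases le_or_gt i 0 with h | h
  · nlinarith
  · nlinarith

theorem gT : Gr eT := by
  intro i
  have := eT_two i
  rw [abs_le]
  constructor
  · nlinarith [sq_nonneg (i + 1), sq_nonneg (i + 2)]
  · rcases le_or_gt i 0 with h | h
    · nlinarith [eT_nonneg i]
    · nlinarith

theorem gS : Gr eS := by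
  intro i
  unfold eS
  rw [abs_le]
  constructor <;> nlinarith [sq_nonneg (i + 1), sq_nonneg (i - 1)]

theorem gP2 : Gr eP2 := by
  intro i
  unfold eP2
  rw [abs_le]
  constructor <;> nlinarith [sq_nonneg (i + 1), sq_nonneg (i - 1)]

theorem gA : Gr eA := by
  intro i
  have := eA_two i
  rw [abs_le]
  constructor
  · nlinarith [sq_nonneg (i + 1), sq_nonneg (i + 2)]
  · nlinarith [sq_nonneg (i + 1), sq_nonneg (i - 1)]

/-- sign -/
def sg (i : ℤ) : ℤ := if Even i then 1 else -1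

theorem sg_eq (i : ℤ) : sg i = (Int.negOnePow i : ℤ) := by
  unfold sg
  split_ifs with h
  · rw [Int.negOnePow_even i h]; rfl
  · rw [Int.not_even_iff_odd] at h
    rw [Int.negOnePow_odd i h]; rfl

theorem sg_add (i j : ℤ) : sg (i + j) = sg i * sg j := by
  rw [sg_eq, sg_eq, sg_eq, Int.negOnePow_add]
  push_cast
  rfl

theorem sg_neg (i : ℤ) : sg (-i) = sg i := by
  unfold sg
  simp [even_neg]

/-- the rearrangement: `f_1^3 φ(-q) = f_2 A` at the level of the theta series -/
theorem rearr : th (fun i => sg i * i) eT * th sg eS = th sg eP2 * th (fun n => 6 * n + 1) eA := by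
  ext m
  set B : ℤ := m + 1 with hB
  rw [coeff_th_mul gT gS eT_nonneg eS_nonneg m (B := B) le_rfl,
    coeff_th_mul gP2 gA eP2_nonneg eA_nonneg m (B := B) le_rfl]
  rw [← sum_filter, ← sum_filter]
  set L := (Icc (-B) B ×ˢ Icc (-B) B).filter (fun p : ℤ × ℤ => eT p.1 + eS p.2 = m) with hL
  set R := (Icc (-B) B ×ˢ Icc (-B) B).filter (fun p : ℤ × ℤ => eP2 p.1 + eA p.2 = m) with hR
  have memL : ∀ p : ℤ × ℤ, p ∈ L ↔ eT p.1 + eS p.2 = m := by
    intro p
    rw [hL, mem_filter, mem_product]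
    refine ⟨fun h => h.2, fun h => ⟨⟨gT.mem (n := m) ?_ le_rfl, gS.mem (n := m) ?_ le_rfl⟩, h⟩⟩
    · have := eS_nonneg p.2; linarith
    · have := eT_nonneg p.1; linarith
  have memR : ∀ p : ℤ × ℤ, p ∈ R ↔ eP2 p.1 + eA p.2 = m := by
    intro p
    rw [hR, mem_filter, mem_product]
    refine ⟨fun h => h.2, fun h => ⟨⟨gP2.mem (n := m) ?_ le_rfl, gA.mem (n := m) ?_ le_rfl⟩, h⟩⟩
    · have := eA_nonneg p.2; linarith
    · have := eP2_nonneg p.1; linarith
  -- quadratic forms
  have qL : ∀ p : ℤ × ℤ, p ∈ L ↔ p.1 * (p.1 + 1) + 2 * p.2 ^ 2 = 2 * m := by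
    intro p
    rw [memL]
    have := eT_two p.1
    unfold eS
    constructor <;> intro h <;> linarith
  have qR : ∀ p : ℤ × ℤ, p ∈ R ↔ 2 * (3 * p.1 ^ 2 - p.1) + p.2 * (3 * p.2 + 1) = 2 * m := by
    intro p
    rw [memR]
    have := eA_two p.2
    unfold eP2
    constructor <;> intro h <;> linarith
  have s1 : ∑ p ∈ L, sg p.1 * sg p.2 * p.2 = 0 := by
    have : ∑ p ∈ L, sg p.1 * sg p.2 * p.2 = ∑ p ∈ L, -(sg p.1 * sg p.2 * p.2) := by
      refine sum_nbij' (fun p => (p.1, -p.2)) (fun p => (p.1, -p.2)) ?_ ?_ ?_ ?_ ?_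
      · intro p hp
        rw [qL] at hp ⊢
        simpa using hp
      · intro p hp
        rw [qL] at hp ⊢
        simpa using hp
      · intro p _; simp
      · intro p _; simp
      · intro p _
        simp only [sg_neg]
        ring
    rw [sum_neg_distrib] at this
    linarith
  have s2 : ∑ p ∈ L, sg p.1 * p.1 * sg p.2 = ∑ p ∈ L, sg p.1 * sg p.2 * (p.1 + 2 * p.2) := by
    have : ∑ p ∈ L, sg p.1 * sg p.2 * (p.1 + 2 * p.2) =
        ∑ p ∈ L, sg p.1 * p.1 * sg p.2 + 2 * ∑ p ∈ L, sg p.1 * sg p.2 * p.2 := by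
      rw [mul_sum, ← sum_add_distrib]
      exact sum_congr rfl fun p _ => by ring
    rw [this, s1]; ring
  rw [s2]
  clear_value L R
  -- split by classes modulo 3
  have s3 : ∑ p ∈ L, sg p.1 * sg p.2 * (p.1 + 2 * p.2) =
      ∑ p ∈ L.filter (fun p => (p.1 + 2 * p.2) % 3 = 0), sg p.1 * sg p.2 * (p.1 + 2 * p.2) +
      (∑ p ∈ L.filter (fun p => (p.1 + 2 * p.2) % 3 = 1), sg p.1 * sg p.2 * (p.1 + 2 * p.2) +
      ∑ p ∈ L.filter (fun p => (p.1 + 2 * p.2) % 3 = 2), sg p.1 * sg p.2 * (p.1 + 2 * p.2)) := by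
    rw [sum_filter, sum_filter, sum_filter, ← sum_add_distrib, ← sum_add_distrib]
    refine sum_congr rfl fun p _ => ?_
    rcases (by omega : (p.1 + 2 * p.2) % 3 = 0 ∨ (p.1 + 2 * p.2) % 3 = 1 ∨ (p.1 + 2 * p.2) % 3 = 2)
      with h | h | h <;> simp [h]
  have s4 : ∑ p ∈ L.filter (fun p => (p.1 + 2 * p.2) % 3 = 1), sg p.1 * sg p.2 * (p.1 + 2 * p.2)
      = 0 := by
    have : ∑ p ∈ L.filter (fun p => (p.1 + 2 * p.2) % 3 = 1), sg p.1 * sg p.2 * (p.1 + 2 * p.2) =
        ∑ p ∈ L.filter (fun p => (p.1 + 2 * p.2) % 3 = 1),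
          -(sg p.1 * sg p.2 * (p.1 + 2 * p.2)) := by
      -- j' = (2 (i + 2 j) + 1) / 3 - j , i' = i + 2 j - 2 j'
      have key : ∀ p ∈ L.filter (fun p => (p.1 + 2 * p.2) % 3 = 1),
          ∃ k : ℤ, p.1 + 2 * p.2 = 3 * k + 1 ∧
            (2 * (p.1 + 2 * p.2) + 1) / 3 = 2 * k + 1 := by
        intro p hp
        rw [mem_filter] at hp
        refine ⟨(p.1 + 2 * p.2) / 3, by omega, by omega⟩
      refine sum_nbij' (fun p => (p.1 + 2 * p.2 - 2 * ((2 * (p.1 + 2 * p.2) + 1) / 3 - p.2),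
          (2 * (p.1 + 2 * p.2) + 1) / 3 - p.2))
        (fun p => (p.1 + 2 * p.2 - 2 * ((2 * (p.1 + 2 * p.2) + 1) / 3 - p.2),
          (2 * (p.1 + 2 * p.2) + 1) / 3 - p.2)) ?_ ?_ ?_ ?_ ?_
      · intro p hp
        obtain ⟨k, h1, h2⟩ := key p hp
        rw [mem_filter, qL] at hp ⊢
        simp only [h2]
        have e1 : p.1 = 3 * k + 1 - 2 * p.2 := by linarith
        obtain ⟨hp1, hp2⟩ := hp
        rw [e1] at hp1 ⊢
        constructor
        · linear_combination hp1
        · omega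
      · intro p hp
        obtain ⟨k, h1, h2⟩ := key p hp
        rw [mem_filter, qL] at hp ⊢
        simp only [h2]
        have e1 : p.1 = 3 * k + 1 - 2 * p.2 := by linarith
        obtain ⟨hp1, hp2⟩ := hp
        rw [e1] at hp1 ⊢
        constructor
        · linear_combination hp1
        · omega
      · intro p hp
        obtain ⟨k, h1, h2⟩ := key p hp
        simp only [h2]
        ext <;> simp only <;> omega
      · intro p hp
        obtain ⟨k, h1, h2⟩ := key p hp
        simp only [h2]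
        ext <;> simp only <;> omega
      · intro p hp
        obtain ⟨k, h1, h2⟩ := key p hp
        simp only [h2]
        have e2 : p.1 + 2 * p.2 - 2 * (2 * k + 1 - p.2) = p.1 + 2 * (2 * p.2 - 2 * k - 1) := by ring
        have e3 : sg (2 * (2 * p.2 - 2 * k - 1)) = 1 := by
          unfold sg; rw [if_pos (even_two_mul _)]
        have e4 : sg (2 * k + 1 - p.2) = - sg p.2 := by
          rw [sub_eq_add_neg, sg_add, sg_neg]
          have : sg (2 * k + 1) = -1 := by
            unfold sg; rw [if_neg]; rw [Int.not_even_iff_odd]; exact odd_two_mul_add_one k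
          rw [this]; ring
        rw [e2, sg_add, e3, e4]
        ring
    rw [sum_neg_distrib] at this
    linarith
  have s5 : ∑ p ∈ L.filter (fun p => (p.1 + 2 * p.2) % 3 = 0), sg p.1 * sg p.2 * (p.1 + 2 * p.2) =
      ∑ p ∈ R, sg p.1 * (3 * p.2) := by
    symm
    refine sum_nbij' (fun p => (p.2 - 2 * p.1, p.2 + p.1))
      (fun p => ((p.2 - p.1) / 3, (p.1 + 2 * p.2) / 3)) ?_ ?_ ?_ ?_ ?_
    · intro p hp
      rw [qR] at hp
      rw [mem_filter, qL]
      constructor
      · simp only; linear_combination hp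
      · simp only; omega
    · intro p hp
      rw [mem_filter, qL] at hp
      obtain ⟨hp1, hp2⟩ := hp
      rw [qR]
      obtain ⟨k, hk⟩ : ∃ k, p.1 + 2 * p.2 = 3 * k := ⟨(p.1 + 2 * p.2) / 3, by omega⟩
      have e1 : (p.1 + 2 * p.2) / 3 = k := by omega
      have e2 : (p.2 - p.1) / 3 = p.2 - k := by omega
      have e3 : p.1 = 3 * k - 2 * p.2 := by linarith
      simp only [e1, e2]
      rw [e3] at hp1
      linear_combination hp1
    · intro p _
      ext <;> simp only <;> omega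
    · intro p hp
      rw [mem_filter] at hp
      obtain ⟨_, hp2⟩ := hp
      ext <;> simp only <;> omega
    · intro p _
      simp only
      have e1 : sg (p.2 - 2 * p.1) = sg p.2 := by
        rw [show p.2 - 2 * p.1 = p.2 + 2 * (-p.1) by ring, sg_add]
        have : sg (2 * (-p.1)) = 1 := by unfold sg; rw [if_pos (even_two_mul _)]
        rw [this]; ring
      have e2 : sg (p.2 + p.1) = sg p.2 * sg p.1 := sg_add _ _
      have e3 : sg p.2 * sg p.2 = 1 := by unfold sg; split_ifs <;> norm_num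
      rw [e1, e2]
      linear_combination (-(3 * sg p.1 * p.2)) * e3
  have s6 : ∑ p ∈ L.filter (fun p => (p.1 + 2 * p.2) % 3 = 2), sg p.1 * sg p.2 * (p.1 + 2 * p.2) =
      ∑ p ∈ R, sg p.1 * (3 * p.2 + 1) := by
    symm
    -- (k, n) ↦ (-n - 1 + 2 k, -n - k)
    refine sum_nbij' (fun p => (-p.2 - 1 + 2 * p.1, -p.2 - p.1))
      (fun p => ((p.1 - p.2 + 1) / 3, (-(p.1 + 2 * p.2) - 1) / 3)) ?_ ?_ ?_ ?_ ?_
    · intro p hp
      rw [qR] at hp
      rw [mem_filter, qL]
      constructor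
      · simp only; linear_combination hp
      · simp only; omega
    · intro p hp
      rw [mem_filter, qL] at hp
      obtain ⟨hp1, hp2⟩ := hp
      rw [qR]
      obtain ⟨k, hk⟩ : ∃ k, p.1 + 2 * p.2 = -3 * k - 1 := ⟨(-(p.1 + 2 * p.2) - 1) / 3, by omega⟩
      have e1 : (-(p.1 + 2 * p.2) - 1) / 3 = k := by omega
      have e2 : (p.1 - p.2 + 1) / 3 = -p.2 - k := by omega
      have e3 : p.1 = -3 * k - 1 - 2 * p.2 := by linarith
      simp only [e1, e2]
      rw [e3] at hp1
      linear_combination hp1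
    · intro p _
      ext <;> simp only <;> omega
    · intro p hp
      rw [mem_filter] at hp
      obtain ⟨_, hp2⟩ := hp
      ext <;> simp only <;> omega
    · intro p _
      simp only
      have e1 : sg (-p.2 - 1 + 2 * p.1) = - sg p.2 := by
        rw [show -p.2 - 1 + 2 * p.1 = -p.2 + (2 * (p.1 - 1) + 1) by ring, sg_add, sg_neg]
        have : sg (2 * (p.1 - 1) + 1) = -1 := by
          unfold sg; rw [if_neg]; rw [Int.not_even_iff_odd]; exact odd_two_mul_add_one _
        rw [this]; ring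
      have e2 : sg (-p.2 - p.1) = sg p.2 * sg p.1 := by
        rw [show -p.2 - p.1 = -(p.2 + p.1) by ring, sg_neg, sg_add]
      have e3 : sg p.2 * sg p.2 = 1 := by unfold sg; split_ifs <;> norm_num
      rw [e1, e2]
      linear_combination (-(sg p.1 * (3 * p.2 + 1))) * e3
  rw [s3, s4, s5, s6, zero_add, ← sum_add_distrib]
  refine sum_congr rfl fun p _ => ?_
  ring

end Pool.Agent.Helper308.QS
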