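import Pool.Agent.Helper308.QS1

/-!
q-series toolkit: Gauss's identity `f_1^2 = f_2 φ(-q)` and Jacobi's identity for `f_1^3`, as
identities of power series.
-/

set_option autoImplicit false

namespace Pool.Agent.Helper308.QS

open Finset Pool.Agent.Y246.Z700

section field

variable {F : Type*} [Field F]

open Pool.Agent.H464R3.J

theorem prod_odd_dn {x : F} (hx : x ≠ 0) (n : ℕ) :
    (∏ j ∈ range n, (1 - x * (x ^ (2 * n))⁻¹ * (x ^ 2) ^ j)) * x ^ (n ^ 2) =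
      (-1) ^ n * ∏ j ∈ range n, (1 - x ^ (2 * j + 1)) := by
  rw [← Finset.prod_range_reflect]
  have h1 : ∀ j ∈ range n, (1 - x * (x ^ (2 * n))⁻¹ * (x ^ 2) ^ (n - 1 - j)) =
      (-1) * (1 - x ^ (2 * j + 1)) * (x ^ (2 * j + 1))⁻¹ := by
    intro j hj
    rw [mem_range] at hj
    obtain ⟨r, rfl⟩ := Nat.exists_eq_add_of_lt hj
    have e1 : j + r + 1 - 1 - j = r := by omega
    rw [e1]
    have e2 : x ^ (2 * (j + r + 1)) = x ^ (2 * j + 1) * (x * (x ^ 2) ^ r) := by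
      rw [← pow_mul]; ring
    rw [e2]
    have h2 : x ^ (2 * j + 1) ≠ 0 := pow_ne_zero _ hx
    have h3 : (x ^ 2) ^ r ≠ 0 := pow_ne_zero _ (pow_ne_zero _ hx)
    field_simp
    ring
  rw [Finset.prod_congr rfl h1, Finset.prod_mul_distrib, Finset.prod_mul_distrib,
    Finset.prod_const, Finset.card_range]
  have h2 : (∏ j ∈ range n, (x ^ (2 * j + 1))⁻¹) * x ^ (n ^ 2) = 1 := by
    induction n with
    | zero => simp
    | succ n ih =>
      rw [Finset.prod_range_succ]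
      have ih' := ih (by
        intro j hj
        have h2 : x ^ (2 * j + 1) ≠ 0 := pow_ne_zero _ hx
        rw [mem_range] at hj
        obtain ⟨r, rfl⟩ := Nat.exists_eq_add_of_lt hj
        have e1 : j + r + 1 - 1 - j = r := by omega
        rw [e1]
        have e2 : x ^ (2 * (j + r + 1)) = x ^ (2 * j + 1) * (x * (x ^ 2) ^ r) := by
          rw [← pow_mul]; ring
        rw [e2]
        have h3 : (x ^ 2) ^ r ≠ 0 := pow_ne_zero _ (pow_ne_zero _ hx)
        field_simp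
        ring)
      have e : (n + 1) ^ 2 = n ^ 2 + (2 * n + 1) := by ring
      rw [e, pow_add]
      have h2 : x ^ (2 * n + 1) ≠ 0 := pow_ne_zero _ hx
      calc _ = ((∏ j ∈ range n, (x ^ (2 * j + 1))⁻¹) * x ^ (n ^ 2)) *
            ((x ^ (2 * n + 1))⁻¹ * x ^ (2 * n + 1)) := by ring
        _ = 1 := by rw [ih', inv_mul_cancel₀ h2, one_mul]
  rw [mul_assoc, h2, mul_one]

theorem prod_odd_up {x : F} (hx : x ≠ 0) (n : ℕ) :
    (∏ j ∈ range n, (1 - x * (x ^ (2 * n))⁻¹ * (x ^ 2) ^ (n + j))) =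
      ∏ j ∈ range n, (1 - x ^ (2 * j + 1)) := by
  refine Finset.prod_congr rfl fun j _ => ?_
  have h2 : x ^ (2 * n) ≠ 0 := pow_ne_zero _ hx
  have e : x * (x ^ (2 * n))⁻¹ * (x ^ 2) ^ (n + j) = x ^ (2 * j + 1) := by
    rw [← pow_mul, show 2 * (n + j) = 2 * n + 2 * j by ring, pow_add]
    field_simp
    ring
  rw [e]

/-- the finite form of Gauss's identity -/
theorem fin_gauss {x : F} (hx : x ≠ 0) (n : ℕ) (hg : Gen (x ^ 2) (2 * n)) :
    (∏ i ∈ range n, (1 - x ^ (2 * i + 1))) ^ 2 = ∑ a ∈ range (2 * n + 1),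
      f (x ^ 2) (2 * n) / (f (x ^ 2) a * f (x ^ 2) (2 * n - a)) * (-1) ^ (a + n) *
        x ^ (((a : ℤ) - n).natAbs ^ 2) := by
  have h := qbinom (q := x ^ 2) (x * (x ^ (2 * n))⁻¹) (2 * n) hg
  rw [show 2 * n = n + n by ring, Finset.prod_range_add, ← show 2 * n = n + n by ring] at h
  have h1 := prod_odd_dn hx n
  have h2 := prod_odd_up hx n
  rw [h2] at h
  have h3 : (∏ i ∈ range n, (1 - x ^ (2 * i + 1))) ^ 2 =
      (-1) ^ n * x ^ (n ^ 2) * ((∏ j ∈ range n, (1 - x * (x ^ (2 * n))⁻¹ * (x ^ 2) ^ j)) *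
        ∏ i ∈ range n, (1 - x ^ (2 * i + 1))) := by
    have e : ((-1 : F)) ^ n * (-1) ^ n = 1 := by rw [← mul_pow]; simp
    calc _ = ((-1) ^ n * (-1) ^ n) * (∏ i ∈ range n, (1 - x ^ (2 * i + 1))) ^ 2 := by
          rw [e, one_mul]
      _ = (-1) ^ n * ((-1) ^ n * (∏ i ∈ range n, (1 - x ^ (2 * i + 1)))) *
          (∏ i ∈ range n, (1 - x ^ (2 * i + 1))) := by ring
      _ = _ := by rw [← h1]; ring
  rw [h3, h, Finset.mul_sum]
  refine Finset.sum_congr rfl fun a ha => ?_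
  have e1 : (x ^ 2) ^ (a.choose 2) * (x * (x ^ (2 * n))⁻¹) ^ a * x ^ (n ^ 2) =
      x ^ (((a : ℤ) - n).natAbs ^ 2) := by
    have h4 : (x ^ (2 * n)) ^ a ≠ 0 := pow_ne_zero _ (pow_ne_zero _ hx)
    have h5 : 2 * a.choose 2 + a + n ^ 2 = ((a : ℤ) - n).natAbs ^ 2 + 2 * n * a := by
      have h6 : 2 * a.choose 2 + a = a ^ 2 := by
        rcases Nat.eq_zero_or_pos a with rfl | hp
        · rfl
        · obtain ⟨b, rfl⟩ : ∃ b, a = b + 1 := ⟨a - 1, by omega⟩
          rw [two_tri]; ring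
      zify
      rw [sq_abs]
      have h7 : (2 * (a.choose 2 : ℤ) + a) = a ^ 2 := by exact_mod_cast h6
      rw [h7]
      ring
    rw [mul_pow, inv_pow]
    field_simp
    rw [← pow_mul, ← pow_mul, ← pow_add, ← pow_add, ← pow_add, h5]
    congr 1
    ring
  rw [← e1, pow_add]
  ring

end field

theorem gauss_aux {F : Type*} [Field F] (a b U V s y E : F) (ha : a ≠ 0) (hb : b ≠ 0) :
    b * V / (a * b) * s * y * (E * (a * U)) = E * (s * y * (U * V)) := by
  field_simp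

open Polynomial

theorem PP_even_odd (n : ℕ) : PP (2 * n) = (∏ i ∈ range n, (1 - (X : ℤ[X]) ^ (2 * i + 1))) *
    expand ℤ 2 (PP n) := by
  unfold PP
  induction n with
  | zero => simp
  | succ n ih =>
    rw [show 2 * (n + 1) = 2 * n + 1 + 1 by ring, Finset.prod_range_succ, Finset.prod_range_succ,
      ih, Finset.prod_range_succ, Finset.prod_range_succ, map_mul, map_sub, map_one, map_pow,
      expand_X]
    ring

theorem Gen_X : let F := FractionRing ℤ[X]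
    ∀ k : ℕ, k ≠ 0 → ∀ N, Pool.Agent.H464R3.J.Gen ((algebraMap ℤ[X] F X) ^ k) N := by
  intro F k hk N j h1 h2
  have hinj : Function.Injective (algebraMap ℤ[X] F) := IsFractionRing.injective ℤ[X] F
  have h3 : (1 : ℤ[X]) - X ^ (k * j) ≠ 0 := by
    intro h
    have h4 := congrArg (fun p => Polynomial.coeff p (k * j)) h
    simp only [coeff_sub, coeff_one, coeff_X_pow, if_true, coeff_zero] at h4
    rw [if_neg (by positivity)] at h4
    norm_num at h4
  intro h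
  apply h3
  apply hinj
  rw [map_sub, map_one, map_pow, map_zero, pow_mul]
  exact h

/-- polynomial form of Gauss's identity -/
theorem poly_gauss (n : ℕ) : (PP (2 * n)) ^ 2 = expand ℤ 2 (PP n) * ∑ a ∈ range (2 * n + 1),
    (-1) ^ (a + n) * X ^ (((a : ℤ) - n).natAbs ^ 2) *
      expand ℤ 2 ((∏ j ∈ Ico (min a (2 * n - a)) n, (1 - X ^ (j + 1))) *
        ∏ j ∈ Ico (max a (2 * n - a)) (2 * n), (1 - X ^ (j + 1))) := by
  let F := FractionRing ℤ[X]
  have hinj : Function.Injective (algebraMap ℤ[X] F) := IsFractionRing.injective ℤ[X] F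
  set x : F := algebraMap ℤ[X] F X with hx
  have hx0 : x ≠ 0 := by
    rw [hx, Ne, map_eq_zero_iff _ hinj]
    exact X_ne_zero
  have hg : ∀ N, Pool.Agent.H464R3.J.Gen (x ^ 2) N := fun N => Gen_X 2 two_ne_zero N
  have hf : ∀ N, Pool.Agent.H464R3.J.f (x ^ 2) N = algebraMap ℤ[X] F (expand ℤ 2 (PP N)) := by
    intro N
    unfold Pool.Agent.H464R3.J.f PP
    rw [map_prod, map_prod]
    refine Finset.prod_congr rfl fun j _ => ?_
    rw [map_sub, map_one, map_pow, expand_X, map_sub, map_one, map_pow, map_pow]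
  have hPne : ∀ N, algebraMap ℤ[X] F (expand ℤ 2 (PP N)) ≠ 0 := fun N => by
    rw [← hf]
    exact (hg N).f_ne le_rfl
  apply hinj
  have h := fin_gauss hx0 n (hg _)
  have hodd : algebraMap ℤ[X] F (∏ i ∈ range n, (1 - (X : ℤ[X]) ^ (2 * i + 1))) =
      ∏ i ∈ range n, (1 - x ^ (2 * i + 1)) := by
    rw [map_prod]
    refine Finset.prod_congr rfl fun j _ => ?_
    rw [map_sub, map_one, map_pow]
  rw [PP_even_odd, map_pow, map_mul, hodd, mul_pow, h, map_mul, map_sum, Finset.sum_mul,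
    Finset.mul_sum]
  refine Finset.sum_congr rfl fun a ha => ?_
  have hA : a ≤ 2 * n := Nat.lt_succ_iff.1 (Finset.mem_range.1 ha)
  have e1 : PP n = PP (min a (2 * n - a)) * ∏ j ∈ Ico (min a (2 * n - a)) n, (1 - X ^ (j + 1)) := by
    unfold PP
    rw [Finset.prod_range_mul_prod_Ico _ (by omega)]
  have e2 : PP (2 * n) = PP (max a (2 * n - a)) *
      ∏ j ∈ Ico (max a (2 * n - a)) (2 * n), (1 - X ^ (j + 1)) := by
    unfold PP
    rw [Finset.prod_range_mul_prod_Ico _ (by omega)]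
  have e3 : Pool.Agent.H464R3.J.f (x ^ 2) a * Pool.Agent.H464R3.J.f (x ^ 2) (2 * n - a) =
      Pool.Agent.H464R3.J.f (x ^ 2) (min a (2 * n - a)) *
        Pool.Agent.H464R3.J.f (x ^ 2) (max a (2 * n - a)) := by
    rcases le_total a (2 * n - a) with hl | hl
    · rw [min_eq_left hl, max_eq_right hl]
    · rw [min_eq_right hl, max_eq_left hl, mul_comm]
  rw [e3, hf, hf, hf]
  have h3 := hPne (min a (2 * n - a))
  have h4 := hPne (max a (2 * n - a))
  have e1' := congrArg (fun p => algebraMap ℤ[X] F (expand ℤ 2 p)) e1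
  have e2' := congrArg (fun p => algebraMap ℤ[X] F (expand ℤ 2 p)) e2
  simp only [map_mul] at e1' e2' ⊢
  rw [e2']
  have e4 : (algebraMap ℤ[X] F (expand ℤ 2 (PP n))) ^ 2 =
      algebraMap ℤ[X] F (expand ℤ 2 (PP n)) * (algebraMap ℤ[X] F (expand ℤ 2 (PP (min a (2 * n - a))))
        * algebraMap ℤ[X] F (expand ℤ 2 (∏ j ∈ Ico (min a (2 * n - a)) n, (1 - X ^ (j + 1))))) := by
    rw [← e1', sq]
  rw [e4]
  simp only [map_pow, map_neg, map_one]
  rw [← hx]
  exact gauss_aux _ _ _ _ _ _ _ h3 h4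

/-- Gauss's identity modulo a power of the variable -/
theorem gauss_dvd (n : ℕ) : (X ^ (2 * n + 1) : ℤ[X]) ∣ (PP (2 * n)) ^ 2 -
    expand ℤ 2 (PP n) * ∑ a ∈ range (2 * n + 1), (-1) ^ (a + n) * X ^ (((a : ℤ) - n).natAbs ^ 2) := by
  rw [poly_gauss, ← mul_sub, ← Finset.sum_sub_distrib]
  refine Dvd.dvd.mul_left (Finset.dvd_sum fun a ha => ?_) _
  have hA : a ≤ 2 * n := Nat.lt_succ_iff.1 (Finset.mem_range.1 ha)
  set U : ℤ[X] := ∏ j ∈ Ico (min a (2 * n - a)) n, (1 - X ^ (j + 1)) with hU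
  set V : ℤ[X] := ∏ j ∈ Ico (max a (2 * n - a)) (2 * n), (1 - X ^ (j + 1)) with hV
  have h1 : (X ^ (min a (2 * n - a) + 1) : ℤ[X]) ∣ U - 1 :=
    dvd_prod_sub_one _ _ fun j hj => (Finset.mem_Ico.1 hj).1
  have h2 : (X ^ (min a (2 * n - a) + 1) : ℤ[X]) ∣ V - 1 :=
    dvd_prod_sub_one _ _ fun j hj => by
      have := (Finset.mem_Ico.1 hj).1
      omega
  have h3 : (X ^ (min a (2 * n - a) + 1) : ℤ[X]) ∣ U * V - 1 := by
    have e : U * V - 1 = (U - 1) * V + (V - 1) := by ring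
    rw [e]
    exact dvd_add (h1.mul_right _) h2
  have h3' : (X ^ (2 * (min a (2 * n - a) + 1)) : ℤ[X]) ∣ expand ℤ 2 (U * V) - 1 := by
    have h := map_dvd (expand ℤ 2) h3
    rwa [map_pow, expand_X, ← pow_mul, map_sub, map_one] at h
  have h4 : (X ^ (2 * n + 1) : ℤ[X]) ∣ X ^ (((a : ℤ) - n).natAbs ^ 2) *
      X ^ (2 * (min a (2 * n - a) + 1)) := by
    rw [← pow_add]
    refine pow_dvd_pow _ ?_
    obtain ⟨k, hk⟩ : ∃ k, k = ((a : ℤ) - n).natAbs := ⟨_, rfl⟩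
    rw [← hk]
    have h5 : min a (2 * n - a) + k = n := by omega
    nlinarith [sq_nonneg ((k : ℤ) - 1), h5]
  have h5 : (X ^ (2 * n + 1) : ℤ[X]) ∣ X ^ (((a : ℤ) - n).natAbs ^ 2) *
      (expand ℤ 2 (U * V) - 1) := h4.trans (mul_dvd_mul_left _ h3')
  have e : (-1) ^ (a + n) * X ^ (((a : ℤ) - n).natAbs ^ 2) * expand ℤ 2 (U * V) -
      (-1) ^ (a + n) * X ^ (((a : ℤ) - n).natAbs ^ 2) =
      (-1) ^ (a + n) * (X ^ (((a : ℤ) - n).natAbs ^ 2) * (expand ℤ 2 (U * V) - 1)) := by ring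
  rw [e]
  exact h5.mul_left _

end Pool.Agent.Helper308.QS
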