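import Pool.Agent.Helper308.QS2

/-!
q-series toolkit: the identities of Euler, Gauss, Jacobi and the series `f_1^5 / f_2^2`, in `ℤ⟦X⟧`.
-/

set_option autoImplicit false

namespace Pool.Agent.Helper308.QS

open Finset Pool.Agent.Y246.Z700 PowerSeries

/-- Euler's product `f_1` -/
noncomputable def E1 : ℤ⟦X⟧ := pentagonalSeries ℤ

/-- `f_k` -/
noncomputable def Ek (k : ℕ) (hk : k ≠ 0) : ℤ⟦X⟧ := expand k hk E1

theorem E1_dvd (N : ℕ) : (X : ℤ⟦X⟧) ^ (N + 1) ∣ E1 - ((PP N : Polynomial ℤ) : ℤ⟦X⟧) := by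
  rw [X_pow_dvd_iff]
  intro m hm
  have h1 : ∀ᶠ M in Filter.atTop, (PP M).coeff m = (pentagonalSeries ℤ).coeff m := by
    filter_upwards [Filter.tendsto_finset_range.eventually
      (PowerSeries.coeff_prod_one_sub_X_pow_eventually_eq ℤ m)] with N hN
    rw [← hN, ← Polynomial.coeff_coe]
    congr 1
    unfold PP
    rw [← Polynomial.coeToPowerSeries.ringHom_apply, map_prod]
    refine Finset.prod_congr rfl fun j _ => ?_
    rw [map_sub, map_one, map_pow]
    simp
  obtain ⟨M, hM, hMN⟩ := (h1.and (Filter.eventually_ge_atTop N)).exists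
  have h2 : (Polynomial.X ^ (N + 1) : Polynomial ℤ) ∣ PP M - PP N := by
    have e : PP M = PP N * ∏ j ∈ Ico N M, (1 - Polynomial.X ^ (j + 1)) := by
      unfold PP
      rw [Finset.prod_range_mul_prod_Ico _ hMN]
    have h3 : (Polynomial.X ^ (N + 1) : Polynomial ℤ) ∣
        ∏ j ∈ Ico N M, (1 - Polynomial.X ^ (j + 1)) - 1 :=
      dvd_prod_sub_one _ _ fun j hj => (Finset.mem_Ico.1 hj).1
    rw [e, show PP N * ∏ j ∈ Ico N M, (1 - Polynomial.X ^ (j + 1)) - PP N =
      PP N * (∏ j ∈ Ico N M, (1 - Polynomial.X ^ (j + 1)) - 1) by ring]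
    exact h3.mul_left _
  have h4 := (Polynomial.X_pow_dvd_iff.1 h2) m hm
  rw [Polynomial.coeff_sub, sub_eq_zero] at h4
  rw [map_sub, E1, ← hM, h4, Polynomial.coeff_coe, sub_self]

/-- the residue class modulo `X^(N+1)` -/
noncomputable def pr (N : ℕ) : ℤ⟦X⟧ →+* (ℤ⟦X⟧ ⧸ Ideal.span {(X : ℤ⟦X⟧) ^ (N + 1)}) :=
  Ideal.Quotient.mk _

theorem pr_eq {N : ℕ} {a b : ℤ⟦X⟧} : pr N a = pr N b ↔ (X : ℤ⟦X⟧) ^ (N + 1) ∣ a - b := by
  unfold pr
  rw [Ideal.Quotient.eq, Ideal.mem_span_singleton]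

theorem pr_eq' {N : ℕ} {a b : ℤ⟦X⟧} : pr N a = pr N b ↔ ∀ m ≤ N, coeff m a = coeff m b := by
  rw [pr_eq, X_pow_dvd_iff]
  simp only [map_sub, sub_eq_zero, Nat.lt_succ_iff]

theorem ext_pr {a b : ℤ⟦X⟧} (h : ∀ N, pr N a = pr N b) : a = b := by
  ext m
  exact (pr_eq'.1 (h m)) m le_rfl

theorem pr_mono {N M : ℕ} (h : N ≤ M) {a b : ℤ⟦X⟧} (hM : pr M a = pr M b) : pr N a = pr N b := by
  rw [pr_eq'] at hM ⊢
  exact fun m hm => hM m (hm.trans h)

theorem coe_dvd {a b : Polynomial ℤ} (h : a ∣ b) : (a : ℤ⟦X⟧) ∣ (b : ℤ⟦X⟧) := by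
  have := map_dvd (Polynomial.coeToPowerSeries.ringHom (R := ℤ)) h
  simpa using this

theorem coe_expand (k : ℕ) (hk : k ≠ 0) (p : Polynomial ℤ) :
    ((Polynomial.expand ℤ k p : Polynomial ℤ) : ℤ⟦X⟧) = expand k hk (p : ℤ⟦X⟧) := by
  ext m
  rw [Polynomial.coeff_coe, Polynomial.coeff_expand (Nat.pos_of_ne_zero hk), coeff_expand,
    Polynomial.coeff_coe]

theorem pr_expand {N : ℕ} (k : ℕ) (hk : k ≠ 0) {a b : ℤ⟦X⟧} (h : pr N a = pr N b) :
    pr N (expand k hk a) = pr N (expand k hk b) := by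
  rw [pr_eq'] at h ⊢
  intro m hm
  rw [coeff_expand, coeff_expand]
  split_ifs with hd
  · exact h _ ((Nat.div_le_self _ _).trans hm)
  · rfl

/-- `φ(-q)` -/
noncomputable def Phi : ℤ⟦X⟧ := th sg eS

/-- Gauss: `f_1^2 = f_2 φ(-q)` -/
theorem gauss : E1 ^ 2 = Ek 2 two_ne_zero * Phi := by
  refine ext_pr fun N => ?_
  have h1 : pr N E1 = pr N ((PP (2 * N) : Polynomial ℤ) : ℤ⟦X⟧) :=
    pr_mono (by omega) (pr_eq.2 (E1_dvd (2 * N)))
  have h2 : pr N (Ek 2 two_ne_zero) = pr N ((Polynomial.expand ℤ 2 (PP N) : Polynomial ℤ) : ℤ⟦X⟧) := by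
    rw [coe_expand 2 two_ne_zero]
    exact pr_expand 2 two_ne_zero (pr_eq.2 (E1_dvd N))
  have h3' := coe_dvd (gauss_dvd N)
  rw [Polynomial.coe_pow, Polynomial.coe_X, Polynomial.coe_sub] at h3'
  have h3 := pr_mono (show N ≤ 2 * N by omega) (pr_eq.2 h3')
  rw [Polynomial.coe_pow, Polynomial.coe_mul, map_pow, map_mul, ← h1, ← h2] at h3
  rw [map_pow, map_mul, h3]
  congr 1
  rw [pr_eq']
  intro m hm
  rw [Phi, coeff_th gS m (B := 2 * N + 1) (by omega), Polynomial.coeff_coe,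
    Polynomial.finsetSum_coeff]
  have e : ∀ a ∈ range (2 * N + 1), ((-1) ^ (a + N) * Polynomial.X ^ (((a : ℤ) - N).natAbs ^ 2) :
      Polynomial ℤ).coeff m = if eS ((a : ℤ) - N) = m then sg ((a : ℤ) - N) else 0 := by
    intro a _
    have e1 : ((-1) ^ (a + N) : Polynomial ℤ) = Polynomial.C (sg ((a : ℤ) - N)) := by
      unfold sg
      have hev : Even ((a : ℤ) - N) ↔ Even (a + N) := by
        rw [Int.even_sub, Nat.even_add]
        simp
      by_cases h : Even (a + N)
      · rw [if_pos (hev.2 h), h.neg_one_pow]; simp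
      · rw [if_neg (fun h' => h (hev.1 h')), (Nat.not_even_iff_odd.1 h).neg_one_pow]; simp
    rw [e1, Polynomial.coeff_C_mul, Polynomial.coeff_X_pow]
    unfold eS
    by_cases h : m = ((a : ℤ) - N).natAbs ^ 2
    · rw [if_pos h, if_pos, mul_one]
      rw [h]
      push_cast
      rw [sq_abs]
    · rw [if_neg h, if_neg, mul_zero]
      intro h'
      apply h
      zify
      rw [sq_abs, h']
  rw [Finset.sum_congr rfl e]
  symm
  -- reindex
  have e2 : ∑ a ∈ range (2 * N + 1), (if eS ((a : ℤ) - N) = m then sg ((a : ℤ) - N) else 0) =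
      ∑ i ∈ Icc (-(N : ℤ)) N, if eS i = m then sg i else 0 := by
    refine Finset.sum_nbij' (fun a => (a : ℤ) - N) (fun i => (i + N).toNat) ?_ ?_ ?_ ?_ ?_
    · intro a ha
      rw [mem_range] at ha
      rw [mem_Icc]
      omega
    · intro i hi
      rw [mem_Icc] at hi
      rw [mem_range]
      omega
    · intro a _
      omega
    · intro i hi
      rw [mem_Icc] at hi
      omega
    · intro a _; rfl
  rw [e2]
  symm
  rw [Finset.sum_subset (Icc_subset_Icc (by omega : -(2 * (N : ℤ) + 1) ≤ -(N : ℤ))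
    (by omega : (N : ℤ) ≤ 2 * N + 1))]
  intro i _ hi
  rw [if_neg]
  intro h
  apply hi
  rw [mem_Icc, ← abs_le]
  unfold eS at h
  have : |i| ≤ |i| ^ 2 := by
    rcases eq_or_ne i 0 with rfl | h0
    · simp
    · have := Int.one_le_abs h0
      nlinarith
  rw [sq_abs, h] at this
  exact this.trans (by exact_mod_cast hm)

/-- Jacobi: `f_1^3 = ∑ (-1)^i i q^(i(i+1)/2)` -/
theorem jacobi : E1 ^ 3 = th (fun i => sg i * i) eT := by
  refine ext_pr fun N => ?_
  have h1 : pr N E1 = pr N ((PP N : Polynomial ℤ) : ℤ⟦X⟧) := pr_eq.2 (E1_dvd N)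
  have h3' := coe_dvd (jac_dvd N)
  rw [Polynomial.coe_pow, Polynomial.coe_X, Polynomial.coe_sub] at h3'
  have h3 := pr_eq.2 h3'
  rw [Polynomial.coe_pow, map_pow, ← h1] at h3
  rw [map_pow, h3, pr_eq']
  intro m hm
  rw [coeff_th gT m (B := N + 1) (by omega), Polynomial.coeff_coe, Polynomial.finsetSum_coeff]
  have ct : ∀ k : ℕ, ((k + 1).choose 2 : ℤ) = eT k := by
    intro k
    have h := two_tri k
    have h' := eT_two (k : ℤ)
    have : (2 * ((k + 1).choose 2 : ℤ)) = (k + 1) * k := by exact_mod_cast h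
    linarith
  have e : ∀ k ∈ range (N + 1), ((-1) ^ k * (2 * (k : Polynomial ℤ) + 1) *
      Polynomial.X ^ ((k + 1).choose 2) : Polynomial ℤ).coeff m =
      if eT k = m then sg k * (2 * k + 1) else 0 := by
    intro k _
    have e1 : ((-1) ^ k * (2 * (k : Polynomial ℤ) + 1) : Polynomial ℤ) =
        Polynomial.C (sg k * (2 * k + 1)) := by
      unfold sg
      by_cases h : Even k
      · rw [if_pos ((Int.even_coe_nat k).2 h), h.neg_one_pow]; simp
      · rw [if_neg (fun h' => h ((Int.even_coe_nat k).1 h')),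
          (Nat.not_even_iff_odd.1 h).neg_one_pow]; simp
    rw [e1, Polynomial.coeff_C_mul, Polynomial.coeff_X_pow, ← ct]
    by_cases h : m = (k + 1).choose 2
    · rw [if_pos h, if_pos (by rw [h]), mul_one]
    · rw [if_neg h, if_neg (fun h' => h (by exact_mod_cast h'.symm)), mul_zero]
  rw [Finset.sum_congr rfl e]
  -- split the sum over the integers
  have hs : Icc (-((N : ℤ) + 1)) (N + 1) = (range (N + 2)).image (fun k : ℕ => (k : ℤ)) ∪
      (range (N + 1)).image (fun k : ℕ => -1 - (k : ℤ)) := by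
    ext i
    simp only [mem_Icc, mem_union, mem_image, mem_range]
    constructor
    · rintro ⟨h1, h2⟩
      rcases le_or_gt 0 i with h | h
      · exact Or.inl ⟨i.toNat, by omega, by omega⟩
      · exact Or.inr ⟨(-1 - i).toNat, by omega, by omega⟩
    · rintro (⟨k, h1, rfl⟩ | ⟨k, h1, rfl⟩) <;> omega
  rw [hs, Finset.sum_union, Finset.sum_image (fun a _ b _ h => by exact_mod_cast h),
    Finset.sum_image (fun a _ b _ h => by
      have : (a : ℤ) = b := by linarith
      exact_mod_cast this), Finset.sum_range_succ _ (N + 1), add_right_comm,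
    ← Finset.sum_add_distrib]
  · have e3 : (if eT ((N + 1 : ℕ) : ℤ) = m then sg ((N + 1 : ℕ) : ℤ) * ((N + 1 : ℕ) : ℤ) else 0) = 0 := by
      rw [if_neg]
      intro h
      have := eT_two ((N + 1 : ℕ) : ℤ)
      rw [h] at this
      push_cast at this
      have hm' : (m : ℤ) ≤ N := by exact_mod_cast hm
      nlinarith
    rw [e3, add_zero]
    refine Finset.sum_congr rfl fun k _ => ?_
    have e4 : eT (-1 - (k : ℤ)) = eT k := by
      have := eT_two (-1 - (k : ℤ))
      have := eT_two (k : ℤ)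
      nlinarith
    have e5 : sg (-1 - (k : ℤ)) = - sg k := by
      rw [sub_eq_add_neg, sg_add, sg_neg, sg_neg]
      have : sg 1 = -1 := by decide
      rw [this]; ring
    rw [e4, e5]
    split_ifs
    · ring
    · ring
  · rw [Finset.disjoint_left]
    intro i hi hi'
    rw [mem_image] at hi hi'
    obtain ⟨a, _, rfl⟩ := hi
    obtain ⟨b, _, hb⟩ := hi'
    omega

/-- the series `∑ (6n+1) q^(n(3n+1)/2)` -/
noncomputable def A1 : ℤ⟦X⟧ := th (fun n => 6 * n + 1) eA

/-- Euler's series in `q^2` -/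
theorem E2_th : Ek 2 two_ne_zero = th sg eP2 := by
  ext m
  rw [Ek, coeff_expand, coeff_th gP2 m (B := m + 1) le_rfl]
  have key : ∀ i : ℤ, eP2 i = 2 * (pentagonal i : ℤ) := by
    intro i
    rw [two_mul_natCast_pentagonal]
    unfold eP2; ring
  split_ifs with hd
  · by_cases hex : ∃ k : ℤ, pentagonal k = m / 2
    · obtain ⟨k, hk⟩ := hex
      have hk2 : eP2 k = m := by rw [key, hk]; omega
      rw [E1, ← hk, coeff_pentagonalSeries_pentagonal, Finset.sum_eq_single k]
      · rw [if_pos hk2, sg_eq]; rfl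
      · intro i _ hi
        rw [if_neg]
        intro h
        apply hi
        apply pentagonal_injective
        rw [key] at h hk2
        omega
      · intro h
        exact absurd (gP2.mem (n := m) hk2.le le_rfl) h
    · rw [E1, coeff_pentagonalSeries_eq_zero, Finset.sum_eq_zero]
      · intro i _
        rw [if_neg]
        intro h
        apply hex
        refine ⟨i, ?_⟩
        rw [key] at h
        omega
      · rintro ⟨k, hk⟩
        exact hex ⟨k, hk⟩
  · rw [Finset.sum_eq_zero]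
    intro i _
    rw [if_neg]
    intro h
    rw [key] at h
    apply hd
    omega

theorem E_five : E1 ^ 5 = Ek 2 two_ne_zero ^ 2 * A1 := by
  have h1 := rearr
  rw [← jacobi, ← E2_th] at h1
  have h2 : E1 ^ 3 * Phi = Ek 2 two_ne_zero * A1 := h1
  calc E1 ^ 5 = E1 ^ 3 * E1 ^ 2 := by ring
    _ = E1 ^ 3 * (Ek 2 two_ne_zero * Phi) := by rw [gauss]
    _ = Ek 2 two_ne_zero * (E1 ^ 3 * Phi) := by ring
    _ = _ := by rw [h2]; ring

end Pool.Agent.Helper308.QS
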