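import Pool.Agent.Helper308.QS3

/-!
q-series toolkit: reduction modulo a prime, the derivation `q d/dq`.
-/

set_option autoImplicit false

namespace Pool.Agent.Helper308.QS

open Finset PowerSeries

/-- `q d/dq` -/
noncomputable def theta (F : ℤ⟦X⟧) : ℤ⟦X⟧ := PowerSeries.mk fun n => (n : ℤ) * coeff n F

theorem theta_eq (F : ℤ⟦X⟧) : theta F = X * derivative ℤ F := by
  ext n
  rw [theta, coeff_mk]
  cases n with
  | zero => simp
  | succ n =>
    rw [coeff_succ_X_mul, coeff_derivative]
    push_cast
    ring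

theorem theta_pow (F : ℤ⟦X⟧) (n : ℕ) : theta (F ^ (n + 1)) = ((n : ℤ⟦X⟧) + 1) * (F ^ n * theta F) := by
  rw [theta_eq, theta_eq, Derivation.leibniz_pow]
  simp only [Nat.add_sub_cancel, smul_eq_mul, nsmul_eq_mul]
  push_cast
  ring

/-- reduction modulo `p` -/
noncomputable def red (p : ℕ) : ℤ⟦X⟧ →+* (ZMod p)⟦X⟧ := PowerSeries.map (Int.castRingHom (ZMod p))

theorem coeff_red (p : ℕ) (F : ℤ⟦X⟧) (n : ℕ) : coeff n (red p F) = ((coeff n F : ℤ) : ZMod p) := by
  rw [red, coeff_map]; rfl

theorem pow_eq_expand (p : ℕ) [hp : Fact p.Prime] (F : (ZMod p)⟦X⟧) :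
    F ^ p = expand p hp.out.ne_zero F := by
  have h := MvPowerSeries.map_frobenius_expand (R := ZMod p) (σ := Unit) p hp.out.ne_zero (f := F)
  have h2 : frobenius (ZMod p) p = RingHom.id _ := by
    ext x
    simp
  rw [h2] at h
  rw [MvPowerSeries.map_id] at h
  exact h.symm

/-- the coefficients in a residue class of a quotient by a series in `q^p` -/
theorem coeff_zero_of_mul_expand {R : Type*} [CommRing R] (p : ℕ) (hp : p ≠ 0) (s E : R⟦X⟧)
    (hE : constantCoeff E = 1) (r : ℕ)
    (h : ∀ m, m % p = r → coeff m (s * expand p hp E) = 0) : ∀ m, m % p = r → coeff m s = 0 := by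
  intro m
  induction m using Nat.strong_induction_on with
  | _ m ih =>
    intro hm
    have h1 := h m hm
    rw [coeff_mul] at h1
    rw [Finset.sum_eq_single (m, 0)] at h1
    · simpa [hE] using h1
    · intro q hq hne
      rw [HasAntidiagonal.mem_antidiagonal] at hq
      rw [coeff_expand]
      split_ifs with hd
      · rw [ih q.1, zero_mul]
        · rcases Nat.eq_zero_or_pos q.2 with h0 | h0
          · exfalso
            apply hne
            ext <;> simp <;> omega
          · omega
        · obtain ⟨k, hk⟩ := hd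
          rw [← hm, ← hq, hk, Nat.add_mul_mod_self_left]
      · rw [mul_zero]
    · intro h'
      exact absurd (HasAntidiagonal.mem_antidiagonal.2 (add_zero m)) h'

theorem const_E1 : constantCoeff E1 = 1 := by
  have : coeff 0 E1 = 1 := by
    have h := coeff_pentagonalSeries_pentagonal (R := ℤ) 0
    have h0 : pentagonal 0 = 0 := by decide
    rw [h0] at h
    rw [E1, h]
    simp
  rw [← coeff_zero_eq_constantCoeff_apply]
  exact this

/-- Jacobi's identity in the symmetric form -/
theorem jacobi' : 2 * E1 ^ 3 = th (fun i => sg i * (2 * i + 1)) eT := by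
  rw [jacobi]
  ext m
  rw [two_mul, map_add, coeff_th gT m (B := m + 1) le_rfl, coeff_th gT m (B := m + 1) le_rfl,
    ← sum_filter, ← sum_filter]
  have h : ∑ a ∈ Icc (-((m : ℤ) + 1)) (m + 1) with eT a = m, sg a * a =
      ∑ a ∈ Icc (-((m : ℤ) + 1)) (m + 1) with eT a = m, sg a * (a + 1) := by
    have key : ∀ a : ℤ, eT (-1 - a) = eT a := by
      intro a
      have := eT_two (-1 - a)
      have := eT_two a
      nlinarith
    refine Finset.sum_nbij' (fun a => -1 - a) (fun a => -1 - a) ?_ ?_ ?_ ?_ ?_
    · intro a ha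
      rw [mem_filter] at ha ⊢
      have e : eT (-1 - a) = m := by rw [key]; exact ha.2
      exact ⟨gT.mem (n := m) e.le le_rfl, e⟩
    · intro a ha
      rw [mem_filter] at ha ⊢
      have e : eT (-1 - a) = m := by rw [key]; exact ha.2
      exact ⟨gT.mem (n := m) e.le le_rfl, e⟩
    · intro a _; ring
    · intro a _; ring
    · intro a _
      have e5 : sg (-1 - a) = - sg a := by
        rw [sub_eq_add_neg, sg_add, sg_neg, sg_neg]
        have : sg 1 = -1 := by decide
        rw [this]; ring
      rw [e5]; ring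
  nth_rw 2 [h]
  rw [← Finset.sum_add_distrib]
  refine Finset.sum_congr rfl fun a _ => ?_
  ring

end Pool.Agent.Helper308.QS
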